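import Mathlib

/-!
# An `i`-graph without a well-covered seed graph

Let `H` be the 3-cube minus a vertex. It is the `i`-graph of the subdivided claw `K_{1,3}`, but it
is not the `i`-graph of any well-covered graph.
-/

set_option autoImplicit false

namespace Pool.Agent.Results.MP_88e7bb_co.NoWellCoveredSeed

universe u

section defs

variable {V : Type u}

/-- `S` is an independent dominating set of `G`. -/
def IndDom (G : SimpleGraph V) (S : Finset V) : Prop :=
  (∀ u ∈ S, ∀ v ∈ S, ¬ G.Adj u v) ∧ ∀ v, v ∉ S → ∃ u ∈ S, G.Adj u v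

/-- The independent domination number `i(G)`. -/
noncomputable def indNumber (G : SimpleGraph V) : ℕ :=
  sInf {k | ∃ S : Finset V, IndDom G S ∧ S.card = k}

/-- `S` is an `i`-set of `G`: an independent dominating set of size `i(G)`. -/
def IsISet (G : SimpleGraph V) (S : Finset V) : Prop := IndDom G S ∧ S.card = indNumber G

/-- `G` is well-covered: all independent dominating sets (that is, all maximal independent sets)
have the same size. -/
def WellCovered (G : SimpleGraph V) : Prop :=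
  ∀ S T : Finset V, IndDom G S → IndDom G T → S.card = T.card

/-- The `i`-graph of `G`: its vertices are the `i`-sets of `G`, and `X`, `Y` are adjacent iff
`Y = (X \ {u}) ∪ {v}` for some `u ∈ X`, `v ∈ Y` with `uv` an edge of `G`. -/
def iGraph [DecidableEq V] (G : SimpleGraph V) : SimpleGraph {S : Finset V // IsISet G S} where
  Adj X Y := ∃ u ∈ X.1, ∃ v ∈ Y.1, G.Adj u v ∧ Y.1 = insert v (X.1.erase u)
  symm := ⟨by
    rintro X Y ⟨u, hu, v, hv, huv, hY⟩
    have hvX : v ∉ X.1 := fun h => X.2.1.1 u hu v h huv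
    have hvE : v ∉ X.1.erase u := fun h => hvX (Finset.mem_of_mem_erase h)
    exact ⟨v, hv, u, hu, huv.symm, by
      rw [hY, Finset.erase_insert hvE, Finset.insert_erase hu]⟩⟩
  loopless := ⟨by
    rintro X ⟨u, hu, v, hv, huv, _⟩
    exact X.2.1.1 u hu v hv huv⟩

end defs

/-! ## The graph `H` and its seed -/

/-- The 3-cube minus a vertex: the vertex `3` is adjacent to `4, 5, 6`, and
`0 - 5 - 2 - 4 - 1 - 6 - 0` is a hexagon. -/
def edgesH : List (Fin 7 × Fin 7) :=
  [(0, 5), (0, 6), (1, 4), (1, 6), (2, 4), (2, 5), (3, 4), (3, 5), (3, 6)]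

def aH (i j : Fin 7) : Bool := edgesH.contains (i, j) || edgesH.contains (j, i)

def H : SimpleGraph (Fin 7) where
  Adj i j := aH i j = true
  symm := ⟨by decide⟩
  loopless := ⟨by decide⟩

/-- The subdivided claw: `6` is adjacent to `3, 4, 5`, and `i` is adjacent to `i + 3` for
`i = 0, 1, 2`. -/
def edgesG : List (Fin 7 × Fin 7) := [(0, 3), (1, 4), (2, 5), (3, 6), (4, 6), (5, 6)]

def aG (i j : Fin 7) : Bool := edgesG.contains (i, j) || edgesG.contains (j, i)

def G0 : SimpleGraph (Fin 7) where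
  Adj i j := aG i j = true
  symm := ⟨by decide⟩
  loopless := ⟨by decide⟩

instance : DecidableRel G0.Adj := fun i j => inferInstanceAs (Decidable (aG i j = true))

instance : DecidableRel H.Adj := fun i j => inferInstanceAs (Decidable (aH i j = true))

instance (S : Finset (Fin 7)) : Decidable (IndDom G0 S) := by
  unfold IndDom
  infer_instance

/-- The `i`-sets of the subdivided claw. -/
def F (i : Fin 7) : Finset (Fin 7) :=
  match i with
  | 0 => {0, 1, 5}
  | 1 => {0, 2, 4}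
  | 2 => {1, 2, 3}
  | 3 => {3, 4, 5}
  | 4 => {2, 3, 4}
  | 5 => {1, 3, 5}
  | 6 => {0, 4, 5}

theorem F_indDom : ∀ i, IndDom G0 (F i) := by decide +kernel

theorem F_card : ∀ i, (F i).card = 3 := by decide

theorem F_inj : ∀ i j, F i = F j → i = j := by decide

theorem all_indDom : ∀ S : Finset (Fin 7), IndDom G0 S → 3 ≤ S.card ∧
    (S.card = 3 → ∃ i, F i = S) := by decide +kernel

theorem F_adj : ∀ i j, (∃ u ∈ F i, ∃ v ∈ F j, G0.Adj u v ∧ F j = insert v ((F i).erase u)) ↔
    H.Adj i j := by decide +kernel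

theorem indNumber_G0 : indNumber G0 = 3 := by
  apply le_antisymm
  · exact Nat.sInf_le ⟨F 0, F_indDom 0, F_card 0⟩
  · have hne : {k | ∃ S : Finset (Fin 7), IndDom G0 S ∧ S.card = k}.Nonempty :=
      ⟨3, F 0, F_indDom 0, F_card 0⟩
    obtain ⟨S, hS, hcard⟩ := Nat.sInf_mem hne
    have h1 := (all_indDom S hS).1
    unfold indNumber
    omega

theorem F_isISet (i : Fin 7) : IsISet G0 (F i) :=
  ⟨F_indDom i, by rw [indNumber_G0, F_card]⟩

/-- `H` is the `i`-graph of the subdivided claw. -/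
theorem seed : Nonempty (H ≃g iGraph G0) := by
  let f : Fin 7 → {S : Finset (Fin 7) // IsISet G0 S} := fun i => ⟨F i, F_isISet i⟩
  have hf : Function.Bijective f := by
    constructor
    · intro i j hij
      exact F_inj i j (congrArg Subtype.val hij)
    · rintro ⟨S, hS⟩
      have h1 : S.card = 3 := by rw [hS.2, indNumber_G0]
      obtain ⟨i, hi⟩ := (all_indDom S hS.1).2 h1
      exact ⟨i, Subtype.ext hi⟩
  exact ⟨⟨Equiv.ofBijective f hf, fun {i j} => F_adj i j⟩⟩

/-! ## No well-covered seed -/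

section square

variable {V : Type u} [DecidableEq V]

/-- `Y` arises from `X` by replacing `u` by `v`. -/
def Sw (X Y : Finset V) (u v : V) : Prop := u ∈ X ∧ v ∉ X ∧ Y = insert v (X.erase u)

theorem square {C P1 P2 O : Finset V} {c1 p1 c2 p2 : V} (h1 : Sw C P1 c1 p1)
    (h2 : Sw C P2 c2 p2) (hc : c1 ≠ c2) (hp : p1 ≠ p2)
    (hO1 : ∃ a b, Sw P1 O a b) (hO2 : ∃ a b, Sw P2 O a b)
    (hCO : ∀ a b, ¬ Sw C O a b) (hne : O ≠ C) :
    ∀ x, x ∈ O ↔ (x ∈ C ∧ x ≠ c1 ∧ x ≠ c2) ∨ x = p1 ∨ x = p2 := by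
  obtain ⟨a1, b1, ha1, hb1, hO1⟩ := hO1
  obtain ⟨a2, b2, ha2, hb2, hO2⟩ := hO2
  obtain ⟨hc1, hp1, rfl⟩ := h1
  obtain ⟨hc2, hp2, rfl⟩ := h2
  simp only [Finset.mem_insert, Finset.mem_erase, not_or, not_and] at ha1 hb1 ha2 hb2
  -- one side
  have key : ∀ (c p a b : V), c ∈ C → p ∉ C → (a = p ∨ a ≠ c ∧ a ∈ C) →
      (b ≠ p ∧ (b ≠ c → b ∉ C)) → O = insert b ((insert p (C.erase c)).erase a) →
      a ∈ C ∧ a ≠ c ∧ b ∉ C ∧ b ≠ p ∧ (∀ x, x ∈ O ↔ (x ∈ C ∧ x ≠ c ∧ x ≠ a) ∨ x = p ∨ x = b) := by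
    intro c p a b hcC hpC ha hb hO
    have hap : a ≠ p := by
      rintro rfl
      have hE : O = insert b (C.erase c) := by
        rw [hO, Finset.erase_insert (fun h => hpC (Finset.mem_of_mem_erase h))]
      by_cases hbc : b = c
      · subst hbc
        rw [Finset.insert_erase hcC] at hE
        exact hne hE
      · exact hCO c b ⟨hcC, hb.2 hbc, hE⟩
    have haC : a ≠ c ∧ a ∈ C := by
      rcases ha with h | h
      · exact absurd h hap
      · exact h
    have hbc : b ≠ c := by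
      rintro rfl
      apply hCO a p
      refine ⟨haC.2, hpC, ?_⟩
      rw [hO]
      ext x
      simp only [Finset.mem_insert, Finset.mem_erase]
      constructor
      · rintro (rfl | ⟨h3, rfl | ⟨h4, h5⟩⟩)
        · exact Or.inr ⟨haC.1.symm, hcC⟩
        · exact Or.inl rfl
        · exact Or.inr ⟨h3, h5⟩
      · rintro (rfl | ⟨h3, h5⟩)
        · exact Or.inr ⟨hap.symm, Or.inl rfl⟩
        · by_cases hxb : x = b
          · exact Or.inl hxb
          · exact Or.inr ⟨h3, Or.inr ⟨hxb, h5⟩⟩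
    refine ⟨haC.2, haC.1, hb.2 hbc, hb.1, ?_⟩
    intro x
    rw [hO]
    simp only [Finset.mem_insert, Finset.mem_erase]
    constructor
    · rintro (rfl | ⟨h3, rfl | ⟨h4, h5⟩⟩)
      · exact Or.inr (Or.inr rfl)
      · exact Or.inr (Or.inl rfl)
      · exact Or.inl ⟨h5, h4, h3⟩
    · rintro (⟨h3, h4, h5⟩ | rfl | rfl)
      · exact Or.inr ⟨h5, Or.inr ⟨h4, h3⟩⟩
      · exact Or.inr ⟨hap.symm, Or.inl rfl⟩
      · exact Or.inl rfl
  obtain ⟨k1, k2, k3, k4, k5⟩ := key c1 p1 a1 b1 hc1 hp1 ha1 hb1 hO1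
  obtain ⟨l1, l2, l3, l4, l5⟩ := key c2 p2 a2 b2 hc2 hp2 ha2 hb2 hO2
  -- compare
  have e1 : a1 = c2 := by
    by_contra hne1
    have h3 : c2 ∈ O := (k5 c2).2 (Or.inl ⟨hc2, hc.symm, fun h => hne1 h.symm⟩)
    rcases (l5 c2).1 h3 with ⟨_, h4, _⟩ | rfl | rfl
    · exact h4 rfl
    · exact hp2 hc2
    · exact l3 hc2
  have e2 : b1 = p2 := by
    have h3 : p2 ∈ O := (l5 p2).2 (Or.inr (Or.inl rfl))
    rcases (k5 p2).1 h3 with ⟨h4, _⟩ | h4 | h4
    · exact absurd h4 hp2
    · exact absurd h4.symm hp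
    · exact h4.symm
  intro x
  rw [k5 x, e1, e2]

end square

/-- `H` is not the `i`-graph of a well-covered graph. -/
theorem no_seed {V : Type u} [DecidableEq V] [Finite V] (G : SimpleGraph V)
    (hG : WellCovered G) : IsEmpty (H ≃g iGraph G) := by
  constructor
  intro e
  let X : Fin 7 → Finset V := fun i => (e i).1
  have hX : ∀ i, IsISet G (X i) := fun i => (e i).2
  have hinj : ∀ i j, i ≠ j → X i ≠ X j := by
    intro i j hij h
    exact hij (e.injective (Subtype.ext h))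
  have hadj : ∀ i j, H.Adj i j → ∃ u v, Sw (X i) (X j) u v := by
    intro i j hij
    have h1 : (iGraph G).Adj (e i) (e j) := e.map_rel_iff.2 hij
    obtain ⟨u, hu, v, hv, huv, h2⟩ := h1
    exact ⟨u, v, hu, fun h => (hX i).1.1 u hu v h huv, h2⟩
  have hnadj : ∀ i j, ¬ H.Adj i j → ∀ u v, ¬ Sw (X i) (X j) u v := by
    rintro i j hij u v ⟨hu, hv, h2⟩
    apply hij
    have h1 : (iGraph G).Adj (e i) (e j) := by
      refine ⟨u, hu, v, ?_, ?_, h2⟩
      · show v ∈ X j
        rw [h2]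
        exact Finset.mem_insert_self _ _
      · obtain ⟨w, hw, hwv⟩ := (hX i).1.2 v hv
        by_cases hwu : w = u
        · rw [← hwu]
          exact hwv
        · exfalso
          refine (hX j).1.1 w ?_ v ?_ hwv
          · rw [h2]
            exact Finset.mem_insert_of_mem (Finset.mem_erase.2 ⟨hwu, hw⟩)
          · rw [h2]
            exact Finset.mem_insert_self _ _
    exact e.map_rel_iff.1 h1
  -- the neighbours of the centre
  obtain ⟨c1, p1, h1⟩ := hadj 3 4 (by decide)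
  obtain ⟨c2, p2, h2⟩ := hadj 3 5 (by decide)
  obtain ⟨c3, p3, h3⟩ := hadj 3 6 (by decide)
  have hdist : ∀ (i j : Fin 7) (c p c' p' : V), i ≠ j → ¬ H.Adj i j → Sw (X 3) (X i) c p →
      Sw (X 3) (X j) c' p' → c ≠ c' ∧ p ≠ p' := by
    rintro i j c p c' p' hij hnij ⟨hc, hp, hi⟩ ⟨hc', hp', hj⟩
    have hcc : c ≠ c' := by
      rintro rfl
      have hpp : p ≠ p' := by
        rintro rfl
        exact hinj i j hij (hi.trans hj.symm)
      apply hnadj i j hnij p p'
      refine ⟨?_, ?_, ?_⟩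
      · rw [hi]
        exact Finset.mem_insert_self _ _
      · rw [hi]
        simp only [Finset.mem_insert, Finset.mem_erase, not_or, not_and]
        exact ⟨hpp.symm, fun _ => hp'⟩
      · rw [hi, hj, Finset.erase_insert (fun h => hp (Finset.mem_of_mem_erase h))]
    refine ⟨hcc, ?_⟩
    rintro rfl
    apply hnadj i j hnij c' c
    refine ⟨?_, ?_, ?_⟩
    · rw [hi]
      exact Finset.mem_insert_of_mem (Finset.mem_erase.2 ⟨hcc.symm, hc'⟩)
    · rw [hi]
      simp only [Finset.mem_insert, Finset.mem_erase, not_or, not_and]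
      refine ⟨?_, fun h => absurd rfl h⟩
      rintro rfl
      exact hp hc
    · rw [hi, hj]
      ext x
      simp only [Finset.mem_insert, Finset.mem_erase]
      constructor
      · rintro (rfl | ⟨h4, h5⟩)
        · refine Or.inr ⟨?_, Or.inl rfl⟩
          rintro rfl
          exact hp hc'
        · by_cases hxc : x = c
          · exact Or.inl hxc
          · exact Or.inr ⟨h4, Or.inr ⟨hxc, h5⟩⟩
      · rintro (rfl | ⟨h4, rfl | ⟨h5, h6⟩⟩)
        · exact Or.inr ⟨hcc, hc⟩
        · exact Or.inl rfl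
        · exact Or.inr ⟨h4, h6⟩
  obtain ⟨hc12, hp12⟩ := hdist 4 5 _ _ _ _ (by decide) (by decide) h1 h2
  obtain ⟨hc13, hp13⟩ := hdist 4 6 _ _ _ _ (by decide) (by decide) h1 h3
  obtain ⟨hc23, hp23⟩ := hdist 5 6 _ _ _ _ (by decide) (by decide) h2 h3
  have hO12 := square h1 h2 hc12 hp12 (hadj 4 2 (by decide)) (hadj 5 2 (by decide))
    (hnadj 3 2 (by decide)) (hinj 2 3 (by decide))
  have hO13 := square h1 h3 hc13 hp13 (hadj 4 1 (by decide)) (hadj 6 1 (by decide))
    (hnadj 3 1 (by decide)) (hinj 1 3 (by decide))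
  have hO23 := square h2 h3 hc23 hp23 (hadj 5 0 (by decide)) (hadj 6 0 (by decide))
    (hnadj 3 0 (by decide)) (hinj 0 3 (by decide))
  obtain ⟨hc1, hp1, e1⟩ := h1
  obtain ⟨hc2, hp2, e2⟩ := h2
  obtain ⟨hc3, hp3, e3⟩ := h3
  have m1 : ∀ x, x ∈ X 4 ↔ x = p1 ∨ (x ≠ c1 ∧ x ∈ X 3) := by
    intro x
    rw [e1]
    simp [Finset.mem_insert, Finset.mem_erase]
  have m2 : ∀ x, x ∈ X 5 ↔ x = p2 ∨ (x ≠ c2 ∧ x ∈ X 3) := by
    intro x
    rw [e2]
    simp [Finset.mem_insert, Finset.mem_erase]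
  have m3 : ∀ x, x ∈ X 6 ↔ x = p3 ∨ (x ≠ c3 ∧ x ∈ X 3) := by
    intro x
    rw [e3]
    simp [Finset.mem_insert, Finset.mem_erase]
  -- the eighth vertex
  let R : Finset V := ((X 3).erase c1).erase c2 |>.erase c3
  let M : Finset V := insert p1 (insert p2 (insert p3 R))
  have hRmem : ∀ x, x ∈ R ↔ x ∈ X 3 ∧ x ≠ c1 ∧ x ≠ c2 ∧ x ≠ c3 := by
    intro x
    simp only [R, Finset.mem_erase]
    tauto
  have hMmem : ∀ x, x ∈ M ↔ x = p1 ∨ x = p2 ∨ x = p3 ∨ x ∈ R := by
    intro x
    simp [M, Finset.mem_insert]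
  have hMcard : M.card = (X 3).card := by
    have hR : R.card + 3 = (X 3).card := by
      have q1 : ((X 3).erase c1).card + 1 = (X 3).card := Finset.card_erase_add_one hc1
      have q2 : (((X 3).erase c1).erase c2).card + 1 = ((X 3).erase c1).card :=
        Finset.card_erase_add_one (Finset.mem_erase.2 ⟨hc12.symm, hc2⟩)
      have q3 : R.card + 1 = (((X 3).erase c1).erase c2).card :=
        Finset.card_erase_add_one (Finset.mem_erase.2
          ⟨hc23.symm, Finset.mem_erase.2 ⟨hc13.symm, hc3⟩⟩)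
      omega
    have r3 : p3 ∉ R := fun h => hp3 ((hRmem _).1 h).1
    have r2 : p2 ∉ insert p3 R := by
      simp only [Finset.mem_insert, not_or]
      exact ⟨hp23, fun h => hp2 ((hRmem _).1 h).1⟩
    have r1 : p1 ∉ insert p2 (insert p3 R) := by
      simp only [Finset.mem_insert, not_or]
      exact ⟨hp12, hp13, fun h => hp1 ((hRmem _).1 h).1⟩
    have s1 : M.card = (insert p2 (insert p3 R)).card + 1 := Finset.card_insert_of_notMem r1
    have s2 : (insert p2 (insert p3 R)).card = (insert p3 R).card + 1 :=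
      Finset.card_insert_of_notMem r2
    have s3 : (insert p3 R).card = R.card + 1 := Finset.card_insert_of_notMem r3
    omega
  have hMind : ∀ u ∈ M, ∀ v ∈ M, ¬ G.Adj u v := by
    -- two elements of `M` lie in a common `i`-set
    have hcom : ∀ u ∈ M, ∀ v ∈ M, ∃ i, u ∈ X i ∧ v ∈ X i := by
      intro u hu v hv
      rw [hMmem, hRmem] at hu hv
      have n12 := (hO12 p1).2 (Or.inr (Or.inl rfl))
      have n12' := (hO12 p2).2 (Or.inr (Or.inr rfl))
      have n13 := (hO13 p1).2 (Or.inr (Or.inl rfl))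
      have n13' := (hO13 p3).2 (Or.inr (Or.inr rfl))
      have n23 := (hO23 p2).2 (Or.inr (Or.inl rfl))
      have n23' := (hO23 p3).2 (Or.inr (Or.inr rfl))
      rcases hu with rfl | rfl | rfl | ⟨u0, u1, u2, u3⟩
      · rcases hv with rfl | rfl | rfl | ⟨v0, v1, v2, v3⟩
        · exact ⟨2, n12, n12⟩
        · exact ⟨2, n12, n12'⟩
        · exact ⟨1, n13, n13'⟩
        · exact ⟨4, (m1 _).2 (Or.inl rfl), (m1 _).2 (Or.inr ⟨v1, v0⟩)⟩
      · rcases hv with rfl | rfl | rfl | ⟨v0, v1, v2, v3⟩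
        · exact ⟨2, n12', n12⟩
        · exact ⟨2, n12', n12'⟩
        · exact ⟨0, n23, n23'⟩
        · exact ⟨5, (m2 _).2 (Or.inl rfl), (m2 _).2 (Or.inr ⟨v2, v0⟩)⟩
      · rcases hv with rfl | rfl | rfl | ⟨v0, v1, v2, v3⟩
        · exact ⟨1, n13', n13⟩
        · exact ⟨0, n23', n23⟩
        · exact ⟨0, n23', n23'⟩
        · exact ⟨6, (m3 _).2 (Or.inl rfl), (m3 _).2 (Or.inr ⟨v3, v0⟩)⟩
      · rcases hv with rfl | rfl | rfl | ⟨v0, v1, v2, v3⟩
        · exact ⟨4, (m1 _).2 (Or.inr ⟨u1, u0⟩), (m1 _).2 (Or.inl rfl)⟩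
        · exact ⟨5, (m2 _).2 (Or.inr ⟨u2, u0⟩), (m2 _).2 (Or.inl rfl)⟩
        · exact ⟨6, (m3 _).2 (Or.inr ⟨u3, u0⟩), (m3 _).2 (Or.inl rfl)⟩
        · exact ⟨3, u0, v0⟩
    intro u hu v hv
    obtain ⟨i, hui, hvi⟩ := hcom u hu v hv
    exact (hX i).1.1 u hui v hvi
  -- extend `M` to a maximal independent set
  have hMdom : IndDom G M := by
    classical
    have := Fintype.ofFinite V
    let 𝒜 : Finset (Finset V) := Finset.univ.filter fun S =>
      M ⊆ S ∧ ∀ u ∈ S, ∀ v ∈ S, ¬ G.Adj u v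
    have hMA : M ∈ 𝒜 := by
      simp only [𝒜, Finset.mem_filter, Finset.mem_univ, true_and]
      exact ⟨subset_rfl, hMind⟩
    obtain ⟨S, hS, hmax⟩ := Finset.exists_max_image 𝒜 Finset.card ⟨M, hMA⟩
    simp only [𝒜, Finset.mem_filter, Finset.mem_univ, true_and] at hS
    have hSdom : IndDom G S := by
      refine ⟨hS.2, ?_⟩
      intro v hv
      by_contra hcon
      push Not at hcon
      have h4 : insert v S ∈ 𝒜 := by
        simp only [𝒜, Finset.mem_filter, Finset.mem_univ, true_and]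
        refine ⟨hS.1.trans (Finset.subset_insert _ _), ?_⟩
        intro a ha b hb
        rw [Finset.mem_insert] at ha hb
        rcases ha with rfl | ha
        · rcases hb with rfl | hb
          · exact G.irrefl
          · exact fun h => hcon b hb h.symm
        · rcases hb with rfl | hb
          · exact hcon a ha
          · exact hS.2 a ha b hb
      have h5 := hmax _ h4
      rw [Finset.card_insert_of_notMem hv] at h5
      omega
    have h6 : S.card = M.card := by
      rw [hMcard]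
      exact hG _ _ hSdom (hX 3).1
    have h7 : M = S := Finset.eq_of_subset_of_card_le hS.1 (by omega)
    rw [h7]
    exact hSdom
  have hMI : IsISet G M := ⟨hMdom, by rw [hMcard]; exact (hX 3).2⟩
  obtain ⟨j, hj⟩ := e.surjective ⟨M, hMI⟩
  have hj' : X j = M := congrArg Subtype.val hj
  have t1 : p1 ∈ X j := by rw [hj', hMmem]; exact Or.inl rfl
  have t2 : p2 ∈ X j := by rw [hj', hMmem]; exact Or.inr (Or.inl rfl)
  have t3 : p3 ∈ X j := by rw [hj', hMmem]; exact Or.inr (Or.inr (Or.inl rfl))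
  fin_cases j
  · rcases (hO23 p1).1 t1 with ⟨h, _⟩ | h | h
    · exact hp1 h
    · exact hp12 h
    · exact hp13 h
  · rcases (hO13 p2).1 t2 with ⟨h, _⟩ | h | h
    · exact hp2 h
    · exact hp12 h.symm
    · exact hp23 h
  · rcases (hO12 p3).1 t3 with ⟨h, _⟩ | h | h
    · exact hp3 h
    · exact hp13 h.symm
    · exact hp23 h.symm
  · exact hp1 t1
  · rcases (m1 p2).1 t2 with h | ⟨_, h⟩
    · exact hp12 h.symm
    · exact hp2 h
  · rcases (m2 p1).1 t1 with h | ⟨_, h⟩
    · exact hp12 h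
    · exact hp1 h
  · rcases (m3 p1).1 t1 with h | ⟨_, h⟩
    · exact hp13 h
    · exact hp1 h

/-- **Some `i`-graph has no well-covered seed graph**: the 3-cube minus a vertex is the `i`-graph
of the subdivided claw, but not of any finite well-covered graph. -/
theorem result :
    ∃ H : SimpleGraph (Fin 7),
      (∃ G : SimpleGraph (Fin 7), Nonempty (H ≃g iGraph G)) ∧
      ∀ (V : Type u) [DecidableEq V] [Finite V] (G : SimpleGraph V), WellCovered G →
        IsEmpty (H ≃g iGraph G) :=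
  ⟨H, ⟨G0, seed⟩, fun _ _ _ G hG => no_seed G hG⟩

end Pool.Agent.Results.MP_88e7bb_co.NoWellCoveredSeed
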